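import Mathlib

/-!
# Shadows of homotopy ribbon concordances on Alexander modules

`RibbonShadow`: the diagram `A_K → H₁(Y; Λ) ← A_J` of a (homotopy) ribbon concordance with exterior
`Y`, and its algebraic consequences.
-/

set_option autoImplicit false

open Matrix Polynomial

namespace Pool.Agent.TH714.CC

/-- `Λ = ℤ[T, T⁻¹]` -/
abbrev Lam : Type := LaurentPolynomial ℤ

/-- the involution `T ↦ T⁻¹` of `Λ` -/
noncomputable def bar (f : Lam) : Lam := LaurentPolynomial.invert f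

/-- The cokernel of a square matrix over `Λ` (columns are the relations). -/
abbrev Coker {n : ℕ} (P : Matrix (Fin n) (Fin n) Lam) : Type :=
  (Fin n → Lam) ⧸ LinearMap.range P.mulVecLin

/-- `M` has a square presentation matrix with determinant `d`. -/
def SquarePresented (M : Type) [AddCommGroup M] [Module Lam M] (d : Lam) : Prop :=
  ∃ (n : ℕ) (P : Matrix (Fin n) (Fin n) Lam), P.det = d ∧ Nonempty (Coker P ≃ₗ[Lam] M)

section key

variable {m n : ℕ} (P : Matrix (Fin n) (Fin n) Lam) (Q : Matrix (Fin m) (Fin m) Lam)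

theorem mk_eq_zero {n : ℕ} (P : Matrix (Fin n) (Fin n) Lam) (x : Fin n → Lam) :
    (Submodule.Quotient.mk x : Coker P) = 0 ↔ ∃ y, P *ᵥ y = x := by
  rw [Submodule.Quotient.mk_eq_zero]
  simp [LinearMap.mem_range]

/-- A linear map out of `Fin n → Λ` into a cokernel lifts to a matrix. -/
theorem exists_lift {k : ℕ} (φ : (Fin k → Lam) →ₗ[Lam] Coker Q) :
    ∃ α : Matrix (Fin m) (Fin k) Lam, ∀ x, (Submodule.Quotient.mk (α *ᵥ x) : Coker Q) = φ x := by
  have hs := Submodule.mkQ_surjective (LinearMap.range Q.mulVecLin)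
  obtain ⟨ψ, hψ⟩ := Module.projective_lifting_property
    (LinearMap.range Q.mulVecLin).mkQ φ hs
  refine ⟨LinearMap.toMatrix' ψ, fun x => ?_⟩
  have h1 : (LinearMap.toMatrix' ψ) *ᵥ x = ψ x := by
    rw [← Matrix.toLin'_apply, Matrix.toLin'_toMatrix']
  rw [h1, ← hψ]
  rfl

/-- If all values of a matrix vanish in the cokernel it factors. -/
theorem exists_factor {k : ℕ} (α : Matrix (Fin m) (Fin k) Lam)
    (h : ∀ x, (Submodule.Quotient.mk (α *ᵥ x) : Coker Q) = 0) :
    ∃ Z : Matrix (Fin m) (Fin k) Lam, Q * Z = α := by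
  have h1 : ∀ j : Fin k, ∃ z, Q *ᵥ z = α *ᵥ (Pi.single j 1) := fun j => (mk_eq_zero Q _).1 (h _)
  choose z hz using h1
  refine ⟨Matrix.of (fun i j => z j i), ?_⟩
  refine Matrix.ext fun i j => ?_
  have h2 := congrFun (hz j) i
  rw [Matrix.mulVec_single_one] at h2
  simpa [Matrix.mul_apply, Matrix.mulVec, dotProduct] using h2

/-- **Key lemma.** A surjection between cokernels of square matrices with associated non-zero
determinants is injective. -/
theorem key (hP : P.det ≠ 0) (hdet : Associated P.det Q.det)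
    (ρ : Coker P →ₗ[Lam] Coker Q) (hρ : Function.Surjective ρ) : Function.Injective ρ := by
  -- the lifts
  obtain ⟨α, hα⟩ := exists_lift Q (ρ.comp (LinearMap.range P.mulVecLin).mkQ)
  have hα' : ∀ x, (Submodule.Quotient.mk (α *ᵥ x) : Coker Q)
      = ρ (Submodule.Quotient.mk x) := fun x => hα x
  have hs : Function.Surjective (ρ.comp (LinearMap.range P.mulVecLin).mkQ) := by
    rw [LinearMap.coe_comp]
    exact hρ.comp (Submodule.mkQ_surjective _)
  obtain ⟨ψ, hψ⟩ := Module.projective_lifting_property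
    (ρ.comp (LinearMap.range P.mulVecLin).mkQ) (LinearMap.range Q.mulVecLin).mkQ hs
  obtain ⟨β, hβ⟩ : ∃ β : Matrix (Fin n) (Fin m) Lam, ∀ x, β *ᵥ x = ψ x :=
    ⟨LinearMap.toMatrix' ψ, fun x => by
      rw [← Matrix.toLin'_apply, Matrix.toLin'_toMatrix']⟩
  have hβ' : ∀ x, ρ (Submodule.Quotient.mk (β *ᵥ x)) = (Submodule.Quotient.mk x : Coker Q) := by
    intro x
    rw [hβ]
    exact LinearMap.congr_fun hψ x
  -- the factorisations
  obtain ⟨Z1, hZ1⟩ := exists_factor Q (-(α * P)) (by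
    intro x
    have h1 : (-(α * P)) *ᵥ x = α *ᵥ (P *ᵥ (-x)) := by
      rw [Matrix.mulVec_neg, Matrix.mulVec_neg, Matrix.mulVec_mulVec, Matrix.neg_mulVec]
    rw [h1, hα']
    have h2 : (Submodule.Quotient.mk (P *ᵥ (-x)) : Coker P) = 0 := (mk_eq_zero P _).2 ⟨_, rfl⟩
    rw [h2, map_zero])
  obtain ⟨Z2, hZ2⟩ := exists_factor Q (1 - α * β) (by
    intro x
    rw [Matrix.sub_mulVec, Matrix.one_mulVec, ← Matrix.mulVec_mulVec, Submodule.Quotient.mk_sub,
      hα', hβ', sub_self])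
  set U : Matrix (Fin n ⊕ Fin m) (Fin n ⊕ Fin m) Lam := Matrix.fromBlocks 1 0 α Q with hU
  set G : Matrix (Fin n ⊕ Fin m) (Fin n ⊕ Fin m) Lam := Matrix.fromBlocks P β Z1 Z2 with hG
  have hUG : U * G = Matrix.fromBlocks P β 0 1 := by
    rw [hU, hG, Matrix.fromBlocks_multiply, hZ1, hZ2]
    congr 1 <;> simp
  have hd : Q.det * G.det = P.det := by
    have h1 := congrArg Matrix.det hUG
    rw [Matrix.det_mul, hU, Matrix.det_fromBlocks_zero₁₂, Matrix.det_fromBlocks_zero₂₁] at h1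
    simpa using h1
  have hGu : IsUnit G.det := by
    obtain ⟨u, hu⟩ := hdet
    rw [← hu, mul_assoc] at hd
    have h2 : (u : Lam) * G.det = 1 := mul_left_cancel₀ hP (by rw [hd, mul_one])
    exact IsUnit.of_mul_eq_one_right _ h2
  -- injectivity
  rw [injective_iff_map_eq_zero]
  intro a ha
  obtain ⟨x, rfl⟩ := Submodule.Quotient.mk_surjective _ a
  rw [← hα', mk_eq_zero] at ha
  obtain ⟨z, hz⟩ := ha
  rw [mk_eq_zero]
  set w : Fin n ⊕ Fin m → Lam := G⁻¹ *ᵥ (Sum.elim x (-z)) with hw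
  have h3 : G *ᵥ w = Sum.elim x (-z) := by
    rw [hw, Matrix.mulVec_mulVec, Matrix.mul_nonsing_inv _ hGu, Matrix.one_mulVec]
  have h4 : U *ᵥ (G *ᵥ w) = Sum.elim x 0 := by
    rw [h3, hU, Matrix.fromBlocks_mulVec]
    congr 1
    · simp
    · simp [Matrix.mulVec_neg, hz]
  rw [Matrix.mulVec_mulVec, hUG, Matrix.fromBlocks_mulVec] at h4
  have h5 : (w ∘ Sum.inr) = 0 := by
    funext i
    have := congrFun h4 (Sum.inr i)
    simpa using this
  refine ⟨w ∘ Sum.inl, ?_⟩
  funext i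
  have := congrFun h4 (Sum.inl i)
  simpa [h5] using this

/-- a square matrix with unit determinant has trivial cokernel -/
theorem coker_subsingleton {n : ℕ} (P : Matrix (Fin n) (Fin n) Lam) (h : IsUnit P.det) :
    Subsingleton (Coker P) := by
  rw [Submodule.Quotient.subsingleton_iff, LinearMap.range_eq_top]
  intro x
  refine ⟨P⁻¹ *ᵥ x, ?_⟩
  rw [Matrix.mulVecLin_apply, Matrix.mulVec_mulVec, Matrix.mul_nonsing_inv _ h, Matrix.one_mulVec]

end key

/-- the key lemma for square presented modules -/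
theorem key' {M N : Type} [AddCommGroup M] [Module Lam M] [AddCommGroup N] [Module Lam N]
    {a b : Lam} (hM : SquarePresented M a) (hN : SquarePresented N b) (ha : a ≠ 0)
    (hab : Associated a b) (ρ : M →ₗ[Lam] N) (hρ : Function.Surjective ρ) :
    Function.Injective ρ := by
  obtain ⟨n, P, hP, ⟨e⟩⟩ := hM
  obtain ⟨m, Q, hQ, ⟨e'⟩⟩ := hN
  have h := key P Q (by rwa [hP]) (by rwa [hP, hQ])
    ((e'.symm : N →ₗ[Lam] Coker Q).comp (ρ.comp (e : Coker P →ₗ[Lam] M)))
    (by
      simp only [LinearMap.coe_comp, LinearEquiv.coe_coe]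
      exact e'.symm.surjective.comp (hρ.comp e.surjective))
  simp only [LinearMap.coe_comp, LinearEquiv.coe_coe] at h
  have h2 : Function.Injective (ρ ∘ e) := fun x y hxy => h (by
    simp only [Function.comp_apply] at hxy ⊢
    rw [hxy])
  intro x y hxy
  obtain ⟨x', rfl⟩ := e.surjective x
  obtain ⟨y', rfl⟩ := e.surjective y
  rw [h2 hxy]

/-- No non-unit norm `f * bar f` divides `d`. -/
def NormFree (d : Lam) : Prop := ∀ g f : Lam, Associated d (g * (f * bar f)) → IsUnit f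

theorem bar_mul (f g : Lam) : bar (f * g) = bar f * bar g := map_mul _ _ _

theorem isUnit_bar {f : Lam} (h : IsUnit f) : IsUnit (bar f) := h.map LaurentPolynomial.invert

/-! ### Cyclic modules -/

/-- `M` is generated by one element. -/
def Cyclic (M : Type) [AddCommGroup M] [Module Lam M] : Prop := ∃ x : M, ∀ y : M, ∃ a : Lam, y = a • x

instance : UniqueFactorizationMonoid Lam :=
  UniqueFactorizationMonoid.of_isLocalization (M := ℤ[X]) (S := Submonoid.powers (X : ℤ[X])) Lam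

/-- In a GCD domain the multipliers bringing an element into a principal ideal form a principal
ideal. -/
theorem exists_mult_one {R : Type*} [CommRing R] [IsDomain R] [GCDMonoid R] (f w : R)
    (hf : f ≠ 0) : ∃ h, ∀ a, f ∣ a * w ↔ h ∣ a := by
  obtain ⟨f', hf'⟩ := gcd_dvd_left f w
  refine ⟨f', fun a => ?_⟩
  have hg0 : gcd f w ≠ 0 := by
    intro h0
    exact hf ((gcd_eq_zero_iff f w).1 h0).1
  have h1 : f ∣ a * w ↔ f ∣ gcd (a * f) (a * w) := by
    rw [dvd_gcd_iff]
    exact ⟨fun h => ⟨Dvd.intro_left a rfl, h⟩, fun h => h.2⟩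
  have h2 : f ∣ a * gcd f w ↔ gcd f w * f' ∣ gcd f w * a := by
    rw [← hf', mul_comm a]
  rw [h1, (gcd_mul_left' a f w).dvd_iff_dvd_right, h2]
  exact mul_dvd_mul_iff_left hg0

theorem exists_mult_aux {R : Type*} [CommRing R] [IsDomain R] [GCDMonoid R] {n : ℕ} (f : R)
    (w : Fin n → R) (hf : f ≠ 0) : ∃ h, ∀ a, (∀ i, f ∣ a * w i) ↔ h ∣ a := by
  have key : ∀ s : Finset (Fin n), ∃ h, ∀ a, (∀ i ∈ s, f ∣ a * w i) ↔ h ∣ a := by
    intro s
    induction s using Finset.induction_on with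
    | empty => exact ⟨1, fun a => by simp⟩
    | insert i s _ ih =>
      obtain ⟨h, hh⟩ := ih
      obtain ⟨h', hh'⟩ := exists_mult_one f (w i) hf
      refine ⟨lcm h' h, fun a => ?_⟩
      rw [lcm_dvd_iff, ← hh a, ← hh' a]
      simp
  obtain ⟨h, hh⟩ := key Finset.univ
  exact ⟨h, fun a => by rw [← hh a]; simp⟩

theorem exists_mult {n : ℕ} (f : Lam) (w : Fin n → Lam) (hf : f ≠ 0) :
    ∃ h, ∀ a, (∀ i, f ∣ a * w i) ↔ h ∣ a :=
  @exists_mult_aux Lam _ _ (UniqueFactorizationMonoid.toGCDMonoid Lam) n f w hf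

/-- The annihilator of an element of a square presented module is principal. -/
theorem exists_annihilator {n : ℕ} (P : Matrix (Fin n) (Fin n) Lam) (hP : P.det ≠ 0)
    (u : Fin n → Lam) : ∃ h, ∀ a : Lam, (∃ y, P *ᵥ y = a • u) ↔ h ∣ a := by
  obtain ⟨h, hh⟩ := exists_mult P.det (P.adjugate *ᵥ u) hP
  refine ⟨h, fun a => ?_⟩
  rw [← hh a]
  constructor
  · rintro ⟨y, hy⟩ i
    have h1 : P.adjugate *ᵥ (P *ᵥ y) = P.adjugate *ᵥ (a • u) := by rw [hy]
    rw [Matrix.mulVec_mulVec, Matrix.adjugate_mul, Matrix.mulVec_smul, Matrix.smul_mulVec,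
      Matrix.one_mulVec] at h1
    have h2 := congrFun h1 i
    simp only [Pi.smul_apply, smul_eq_mul] at h2
    rw [← h2]
    exact Dvd.intro _ rfl
  · intro hd
    choose y hy using hd
    refine ⟨y, ?_⟩
    have h1 : P.det • y = a • (P.adjugate *ᵥ u) := by
      funext i
      simp only [Pi.smul_apply, smul_eq_mul]
      exact (hy i).symm
    have h2 : P *ᵥ (P.det • y) = P *ᵥ (a • (P.adjugate *ᵥ u)) := by rw [h1]
    rw [Matrix.mulVec_smul, Matrix.mulVec_smul, Matrix.mulVec_mulVec, Matrix.mul_adjugate,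
      Matrix.smul_mulVec, Matrix.one_mulVec] at h2
    funext i
    have h3 := congrFun h2 i
    simp only [Pi.smul_apply, smul_eq_mul] at h3 ⊢
    exact mul_left_cancel₀ hP (by rw [h3]; ring)

/-- A submodule with square presented quotient of a cyclic module is cyclic. -/
theorem cyclic_of_embedding {A X : Type} [AddCommGroup A] [Module Lam A] [AddCommGroup X]
    [Module Lam X] (ι : A →ₗ[Lam] X) (hι : Function.Injective ι) {f : Lam} (hf : f ≠ 0)
    (hq : SquarePresented (X ⧸ LinearMap.range ι) f) (hX : Cyclic X) : Cyclic A := by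
  obtain ⟨x0, hx0⟩ := hX
  obtain ⟨n, P, hP, ⟨e⟩⟩ := hq
  obtain ⟨u', hu'⟩ := e.surjective (Submodule.Quotient.mk x0)
  obtain ⟨u, rfl⟩ := Submodule.Quotient.mk_surjective _ u'
  obtain ⟨h, hh⟩ := exists_annihilator P (by rwa [hP]) u
  have hmem : ∀ a : Lam, a • x0 ∈ LinearMap.range ι ↔ h ∣ a := by
    intro a
    rw [← hh a, ← mk_eq_zero, Submodule.Quotient.mk_smul, ← Submodule.Quotient.mk_eq_zero,
      Submodule.Quotient.mk_smul, ← hu', ← map_smul]
    constructor
    · intro h1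
      exact e.injective (by rw [h1, map_zero])
    · intro h1
      rw [h1, map_zero]
  obtain ⟨z, hz⟩ := (hmem h).2 dvd_rfl
  refine ⟨z, fun y => ?_⟩
  obtain ⟨a, ha⟩ := hx0 (ι y)
  obtain ⟨c, rfl⟩ := (hmem a).1 ⟨y, ha⟩
  refine ⟨c, hι ?_⟩
  rw [map_smul, hz, ha, smul_smul, mul_comm]

theorem Cyclic.of_surjective {M N : Type} [AddCommGroup M] [Module Lam M] [AddCommGroup N]
    [Module Lam N] (h : Cyclic M) (ρ : M →ₗ[Lam] N) (hρ : Function.Surjective ρ) : Cyclic N := by
  obtain ⟨x, hx⟩ := h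
  refine ⟨ρ x, fun y => ?_⟩
  obtain ⟨y', rfl⟩ := hρ y
  obtain ⟨a, ha⟩ := hx y'
  exact ⟨a, by rw [ha, map_smul]⟩

/-! ### Stable numbers of generators -/

/-- `M ⊕ Λ^N` is generated by `d + N` elements for some `N`. -/
def StablyGen (d : ℕ) (M : Type) [AddCommGroup M] [Module Lam M] : Prop :=
  ∃ (N : ℕ) (φ : (Fin (d + N) → Lam) →ₗ[Lam] M × (Fin N → Lam)), Function.Surjective φ

theorem StablyGen.of {d : ℕ} {M : Type} [AddCommGroup M] [Module Lam M] (k N : ℕ) (h : k = d + N)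
    (φ : (Fin k → Lam) →ₗ[Lam] M × (Fin N → Lam)) (hφ : Function.Surjective φ) :
    StablyGen d M := by
  subst h
  exact ⟨N, φ, hφ⟩

theorem StablyGen.of_surjective {d : ℕ} {M N : Type} [AddCommGroup M] [Module Lam M]
    [AddCommGroup N] [Module Lam N] (h : StablyGen d M) (ρ : M →ₗ[Lam] N)
    (hρ : Function.Surjective ρ) : StablyGen d N := by
  obtain ⟨k, φ, hφ⟩ := h
  refine ⟨k, (LinearMap.prodMap ρ LinearMap.id).comp φ, ?_⟩
  rw [LinearMap.coe_comp]
  refine Function.Surjective.comp ?_ hφ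
  rw [LinearMap.coe_prodMap]
  exact hρ.prodMap Function.surjective_id

/-- `Λ^a × Λ^b ≃ Λ^(a+b)` -/
noncomputable def appendEquiv (a b : ℕ) :
    ((Fin a → Lam) × (Fin b → Lam)) ≃ₗ[Lam] (Fin (a + b) → Lam) :=
  (LinearEquiv.sumArrowLequivProdArrow (Fin a) (Fin b) Lam Lam).symm ≪≫ₗ
    LinearEquiv.funCongrLeft Lam Lam finSumFinEquiv.symm

theorem Cyclic.stablyGen {M : Type} [AddCommGroup M] [Module Lam M] (h : Cyclic M) :
    StablyGen 1 M := by
  obtain ⟨x, hx⟩ := h
  refine ⟨0, LinearMap.prod ((LinearMap.toSpanSingleton Lam M x).comp (LinearMap.proj 0)) 0, ?_⟩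
  rintro ⟨y, w⟩
  obtain ⟨a, ha⟩ := hx y
  refine ⟨fun _ => a, ?_⟩
  ext1
  · simp [ha]
  · exact Subsingleton.elim _ _

/-- A submodule with square presented quotient inherits the stable number of generators. -/
theorem stablyGen_of_embedding {A X : Type} [AddCommGroup A] [Module Lam A] [AddCommGroup X]
    [Module Lam X] (ι : A →ₗ[Lam] X) (hι : Function.Injective ι) {f : Lam}
    (hq : SquarePresented (X ⧸ LinearMap.range ι) f) {d : ℕ} (hX : StablyGen d X) :
    StablyGen d A := by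
  obtain ⟨N, φ, hφ⟩ := hX
  obtain ⟨n, P, -, ⟨e⟩⟩ := hq
  -- the map to the quotient
  set θ : (Fin (d + N) → Lam) →ₗ[Lam] Coker P :=
    (e.symm : (X ⧸ LinearMap.range ι) →ₗ[Lam] Coker P).comp
      ((LinearMap.range ι).mkQ.comp ((LinearMap.fst Lam X (Fin N → Lam)).comp φ)) with hθdef
  have hθ' : ∀ a, θ a = e.symm (Submodule.Quotient.mk (φ a).1) := fun a => rfl
  have hθ : Function.Surjective θ := by
    intro y
    obtain ⟨x, hx⟩ := Submodule.Quotient.mk_surjective _ (e y)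
    obtain ⟨a, ha⟩ := hφ (x, 0)
    refine ⟨a, ?_⟩
    rw [hθ', ha, hx, e.symm_apply_apply]
  have hθ0 : ∀ a, θ a = 0 ↔ (φ a).1 ∈ LinearMap.range ι := by
    intro a
    rw [hθ', map_eq_zero_iff _ e.symm.injective, Submodule.Quotient.mk_eq_zero]
  obtain ⟨s, hs⟩ := exists_lift P θ
  obtain ⟨t, ht⟩ := Module.projective_lifting_property θ (LinearMap.range P.mulVecLin).mkQ hθ
  have ht' : ∀ b, θ (t b) = Submodule.Quotient.mk b := fun b => LinearMap.congr_fun ht b
  set β : ((Fin (d + N) → Lam) × (Fin n → Lam)) →ₗ[Lam] (Fin n → Lam) :=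
    LinearMap.coprod s.mulVecLin P.mulVecLin with hβdef
  have hβ : ∀ a c, β (a, c) = s *ᵥ a + P *ᵥ c := fun a c => by simp [hβdef]
  set Ψ : ((Fin (d + N) → Lam) × (Fin n → Lam)) →ₗ[Lam] (Fin (d + N) → Lam) :=
    LinearMap.fst Lam _ _ - t.comp β with hΨdef
  have hΨ : ∀ a c, Ψ (a, c) = a - t (s *ᵥ a + P *ᵥ c) := fun a c => by
    rw [hΨdef, LinearMap.sub_apply, LinearMap.comp_apply, hβ]
    rfl
  have hmem : ∀ z, (φ (Ψ z)).1 ∈ LinearMap.range ι := by
    rintro ⟨a, c⟩
    have h0 : (Submodule.Quotient.mk (P *ᵥ c) : Coker P) = 0 := (mk_eq_zero P _).2 ⟨c, rfl⟩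
    rw [← hθ0, hΨ, map_sub, ht', Submodule.Quotient.mk_add, hs, h0, add_zero, sub_self]
  set E : A ≃ₗ[Lam] LinearMap.range ι := LinearEquiv.ofInjective ι hι with hE
  have hEz : ∀ z, ((E z : LinearMap.range ι) : X) = ι z := fun z => rfl
  set κ : ((Fin (d + N) → Lam) × (Fin n → Lam)) →ₗ[Lam] A :=
    (E.symm : LinearMap.range ι →ₗ[Lam] A).comp (LinearMap.codRestrict (LinearMap.range ι)
      ((LinearMap.fst Lam X (Fin N → Lam)).comp (φ.comp Ψ)) hmem) with hκdef
  have hκ : ∀ z, ι (κ z) = (φ (Ψ z)).1 := by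
    intro z
    rw [← hEz, hκdef]
    simp only [LinearMap.comp_apply, LinearEquiv.coe_coe, E.apply_symm_apply]
    rfl
  set Ω : ((Fin (d + N) → Lam) × (Fin n → Lam)) →ₗ[Lam] A × ((Fin N → Lam) × (Fin n → Lam)) :=
    LinearMap.prod κ (LinearMap.prod ((LinearMap.snd Lam X (Fin N → Lam)).comp (φ.comp Ψ)) β)
    with hΩdef
  have hΩ : Function.Surjective Ω := by
    rintro ⟨z, w, b⟩
    obtain ⟨m, hm⟩ := hφ (ι z, w)
    have hθm : θ m = 0 := (hθ0 m).2 (by rw [hm]; exact ⟨z, rfl⟩)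
    have h1 : (Submodule.Quotient.mk (b - s *ᵥ (m + t b)) : Coker P) = 0 := by
      rw [Submodule.Quotient.mk_sub, hs, map_add, hθm, ht', zero_add, sub_self]
    obtain ⟨c, hc⟩ := (mk_eq_zero P _).1 h1
    have h2 : β (m + t b, c) = b := by
      rw [hβ, hc]
      abel
    have h3 : Ψ (m + t b, c) = m := by
      rw [hΨ, hc, add_sub_cancel]
      abel
    refine ⟨(m + t b, c), ?_⟩
    have h4 : κ (m + t b, c) = z := hι (by rw [hκ, h3, hm])
    have h5 : Ω (m + t b, c) = (κ (m + t b, c), ((φ (Ψ (m + t b, c))).2, β (m + t b, c))) := rfl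
    rw [h5, h4, h2, h3, hm]
  refine StablyGen.of (d + N + n) (N + n) (by omega)
    (((LinearMap.prodMap LinearMap.id (appendEquiv N n : _ →ₗ[Lam] _)).comp Ω).comp
      ((appendEquiv (d + N) n).symm : _ →ₗ[Lam] _)) ?_
  rw [LinearMap.coe_comp, LinearMap.coe_comp, LinearMap.coe_prodMap]
  exact ((Function.surjective_id.prodMap (appendEquiv N n).surjective).comp hΩ).comp
    (appendEquiv (d + N) n).symm.surjective

/-! ### Ribbon concordances -/

/-- `ℚ(T)/Λ`, in which the Blanchfield pairing takes its values -/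
abbrev QL : Type := FractionRing Lam ⧸ LinearMap.range (Algebra.linearMap Lam (FractionRing Lam))

/-- What a ribbon concordance `K ≤ J` gives for the Alexander modules `A`, `B` of `K`, `J` with
Blanchfield pairings `lA`, `lB` and Alexander polynomials `a`, `b`. -/
def RibbonShadow {A B : Type} [AddCommGroup A] [Module Lam A] [AddCommGroup B] [Module Lam B]
    (lA : A → A → QL) (lB : B → B → QL) (a b : Lam) : Prop :=
  ∃ (X : Type) (_ : AddCommGroup X) (_ : Module Lam X) (ι : A →ₗ[Lam] X) (ρ : B →ₗ[Lam] X)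
    (f : Lam), Function.Injective ι ∧ Function.Surjective ρ ∧
      SquarePresented (X ⧸ LinearMap.range ι) f ∧ Associated b (a * (f * bar f)) ∧
      ∀ x y x' y', ι x = ρ x' → ι y = ρ y' → lA x y = lB x' y'

/-- (1) the norm-free case of a shadow -/
theorem shadow_normFree {A B : Type} [AddCommGroup A] [Module Lam A] [AddCommGroup B]
    [Module Lam B] {lA : A → A → QL} {lB : B → B → QL} {a b : Lam}
    (hs : RibbonShadow lA lB a b) (hA : SquarePresented A a) (hB : SquarePresented B b)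
    (hb : b ≠ 0) (hn : NormFree b) :
    Associated b a ∧ ∃ e : A ≃ₗ[Lam] B, ∀ x y, lB (e x) (e y) = lA x y := by
  obtain ⟨X, _, _, ι, ρ, f, hι, hρ, hq, hass, hl⟩ := hs
  have hf : IsUnit f := hn a f hass
  have hba : Associated b a := by
    refine hass.trans ?_
    have h1 : IsUnit (f * bar f) := hf.mul (isUnit_bar hf)
    exact (associated_mul_unit_left a _ h1)
  refine ⟨hba, ?_⟩
  obtain ⟨n, P, hP, ⟨e⟩⟩ := hq
  have hsub : Subsingleton (Coker P) := coker_subsingleton P (by rwa [hP])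
  have hsub2 : Subsingleton (X ⧸ LinearMap.range ι) := e.symm.injective.subsingleton
  have hιs : Function.Surjective ι := by
    rw [← LinearMap.range_eq_top]
    exact Submodule.Quotient.subsingleton_iff.1 hsub2
  set E : A ≃ₗ[Lam] X := LinearEquiv.ofBijective ι ⟨hι, hιs⟩ with hE
  set ρ' : B →ₗ[Lam] A := (E.symm : X →ₗ[Lam] A).comp ρ with hρ'
  have hρ's : Function.Surjective ρ' := by
    rw [hρ']
    simp only [LinearMap.coe_comp, LinearEquiv.coe_coe]
    exact E.symm.surjective.comp hρ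
  have hρ'i : Function.Injective ρ' := key' hB hA hb hba ρ' hρ's
  set F : B ≃ₗ[Lam] A := LinearEquiv.ofBijective ρ' ⟨hρ'i, hρ's⟩ with hF
  have hFe : ∀ x : A, ι x = ρ (F.symm x) := by
    intro x
    have h1 : ρ' (F.symm x) = x := F.apply_symm_apply x
    have h2 : E (ρ' (F.symm x)) = ρ (F.symm x) := by
      rw [hρ']
      exact E.apply_symm_apply _
    rw [h1] at h2
    exact h2
  exact ⟨F.symm, fun x y => (hl x y _ _ (hFe x) (hFe y)).symm⟩

/-- (2) cyclicity goes down -/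
theorem shadow_cyclic {A B : Type} [AddCommGroup A] [Module Lam A] [AddCommGroup B]
    [Module Lam B] {lA : A → A → QL} {lB : B → B → QL} {a b : Lam}
    (hs : RibbonShadow lA lB a b) (hb : b ≠ 0) (hc : Cyclic B) : Cyclic A := by
  obtain ⟨X, _, _, ι, ρ, f, hι, hρ, hq, hass, -⟩ := hs
  have hf : f ≠ 0 := by
    rintro rfl
    rw [zero_mul, mul_zero] at hass
    exact hb ((associated_zero_iff_eq_zero b).1 hass)
  exact cyclic_of_embedding ι hι hf hq (hc.of_surjective ρ hρ)

/-- (2') the stable number of generators goes down -/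
theorem shadow_stable {A B : Type} [AddCommGroup A] [Module Lam A] [AddCommGroup B]
    [Module Lam B] {lA : A → A → QL} {lB : B → B → QL} {a b : Lam} {d : ℕ}
    (hs : RibbonShadow lA lB a b) (hd : StablyGen d B) : StablyGen d A := by
  obtain ⟨X, _, _, ι, ρ, f, hι, hρ, hq, -, -⟩ := hs
  exact stablyGen_of_embedding ι hι hq (hd.of_surjective ρ hρ)


end Pool.Agent.TH714.CC
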